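import Mathlib

set_option autoImplicit false

/-!
Path connectedness of the sets `{w ≠ 0 : |w - a| < ε, |h / w - b| < ε}`.
-/

namespace Pool.Agent.TH259.OM

open Set Filter Topology ComplexConjugate

/-- An open disc minus a closed disc is path connected if nonempty. -/
lemma disc_sdiff (c₁ c₂ : ℂ) (r₁ r₂ : ℝ) (hr₂ : 0 ≤ r₂)
    (hne : {w : ℂ | ‖w - c₁‖ < r₁ ∧ r₂ < ‖w - c₂‖}.Nonempty) :
    IsPathConnected {w : ℂ | ‖w - c₁‖ < r₁ ∧ r₂ < ‖w - c₂‖} := by
  set Q := {w : ℂ | ‖w - c₁‖ < r₁ ∧ r₂ < ‖w - c₂‖} with hQ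
  -- direction
  obtain ⟨u, d, hu, hd, hud⟩ : ∃ (u : ℂ) (d : ℝ), ‖u‖ = 1 ∧ 0 ≤ d ∧ c₁ - c₂ = d * u := by
    by_cases h : c₁ - c₂ = 0
    · exact ⟨1, 0, by simp, le_rfl, by simp [h]⟩
    · refine ⟨(c₁ - c₂) / ‖c₁ - c₂‖, ‖c₁ - c₂‖, ?_, norm_nonneg _, ?_⟩
      · rw [norm_div, Complex.norm_real, norm_norm, div_self (norm_ne_zero_iff.2 h)]
      · have : (‖c₁ - c₂‖ : ℂ) ≠ 0 := by exact_mod_cast norm_ne_zero_iff.2 h
        field_simp
  have hc₁ : c₁ = c₂ + d * u := by rw [← hud]; ring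
  -- distances of points c₂ + ρ e^{iθ} u
  have hdist2 : ∀ (ρ θ : ℝ), 0 ≤ ρ → ‖c₂ + ρ * Complex.exp (θ * Complex.I) * u - c₂‖ = ρ := by
    intro ρ θ hρ
    rw [add_sub_cancel_left, norm_mul, norm_mul, hu, Complex.norm_exp_ofReal_mul_I,
      Complex.norm_real, Real.norm_of_nonneg hρ, mul_one, mul_one]
  have hdist1 : ∀ (ρ θ : ℝ), ‖c₂ + ρ * Complex.exp (θ * Complex.I) * u - c₁‖ ^ 2 =
      ρ ^ 2 + d ^ 2 - 2 * ρ * d * Real.cos θ := by
    intro ρ θ
    have e1 : c₂ + ρ * Complex.exp (θ * Complex.I) * u - c₁ =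
        (ρ * Complex.exp (θ * Complex.I) - d) * u := by
      rw [hc₁]; ring
    rw [e1, norm_mul, hu, mul_one, ← Complex.normSq_eq_norm_sq, Complex.normSq_apply,
      Complex.exp_mul_I]
    simp only [Complex.sub_re, Complex.mul_re, Complex.ofReal_re, Complex.add_re, Complex.cos_ofReal_re,
      Complex.ofReal_im, Complex.sub_im, Complex.mul_im, Complex.add_im, Complex.I_re, Complex.I_im,
      Complex.sin_ofReal_re, Complex.sin_ofReal_im, Complex.cos_ofReal_im]
    have := Real.sin_sq_add_cos_sq θ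
    nlinarith [this]
  have hr₁ : 0 < r₁ := by
    obtain ⟨w, hw⟩ := hne
    exact lt_of_le_of_lt (norm_nonneg _) hw.1
  -- every point is joined to a point on the ray
  have hray : ∀ w ∈ Q, ∃ ρ : ℝ, r₂ < ρ ∧ |ρ - d| < r₁ ∧ JoinedIn Q w (c₂ + ρ * u) := by
    intro w hw
    obtain ⟨hw1, hw2⟩ := hw
    set z := (w - c₂) * conj u with hz
    have huu : conj u * u = 1 := by
      rw [mul_comm, Complex.mul_conj, Complex.normSq_eq_norm_sq, hu]; simp
    have hzn : ‖z‖ = ‖w - c₂‖ := by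
      rw [hz, norm_mul, RCLike.norm_conj, hu, mul_one]
    have hwz : w = c₂ + ‖z‖ * Complex.exp (z.arg * Complex.I) * u := by
      rw [Complex.norm_mul_exp_arg_mul_I, hz, mul_assoc, huu, mul_one]
      ring
    have hz2 : r₂ < ‖z‖ := by rw [hzn]; exact hw2
    have hz0 : 0 ≤ ‖z‖ := norm_nonneg z
    have hcos : ∀ t ∈ Icc (0 : ℝ) 1, Real.cos z.arg ≤ Real.cos ((1 - t) * z.arg) := by
      intro t ht
      rw [← Real.cos_abs z.arg, ← Real.cos_abs ((1 - t) * z.arg)]
      apply Real.cos_le_cos_of_nonneg_of_le_pi (abs_nonneg _)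
        (abs_le.2 ⟨(Complex.neg_pi_lt_arg z).le, Complex.arg_le_pi z⟩)
      rw [abs_mul]
      have : |1 - t| ≤ 1 := by rw [abs_le]; constructor <;> linarith [ht.1, ht.2]
      exact mul_le_of_le_one_left (abs_nonneg _) this
    have hbound : ∀ t ∈ Icc (0 : ℝ) 1,
        ‖c₂ + ‖z‖ * Complex.exp (((1 - t) * z.arg : ℝ) * Complex.I) * u - c₁‖ < r₁ := by
      intro t ht
      have h1 := hdist1 ‖z‖ ((1 - t) * z.arg)
      have h2 := hdist1 ‖z‖ z.arg
      rw [← hwz] at h2
      have h3 := hcos t ht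
      have h4 : ‖c₂ + ‖z‖ * Complex.exp (((1 - t) * z.arg : ℝ) * Complex.I) * u - c₁‖ ^ 2 ≤
          ‖w - c₁‖ ^ 2 := by
        rw [h1, h2]
        have : 2 * ‖z‖ * d * Real.cos z.arg ≤ 2 * ‖z‖ * d * Real.cos ((1 - t) * z.arg) :=
          mul_le_mul_of_nonneg_left h3 (by positivity)
        linarith
      have h5 := (pow_le_pow_iff_left₀ (norm_nonneg _) (norm_nonneg _) (by norm_num)).1 h4
      exact lt_of_le_of_lt h5 hw1
    refine ⟨‖z‖, hz2, ?_, ?_⟩
    · have h1 := hbound 1 ⟨by norm_num, le_rfl⟩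
      have h2 : c₂ + ‖z‖ * Complex.exp (((1 - 1) * z.arg : ℝ) * Complex.I) * u - c₁ =
          ((‖z‖ - d : ℝ) : ℂ) * u := by
        rw [hc₁]
        simp
        ring
      rw [h2, norm_mul, hu, mul_one, Complex.norm_real, Real.norm_eq_abs] at h1
      exact h1
    · apply JoinedIn.ofLine (f := fun t : ℝ =>
        c₂ + ‖z‖ * Complex.exp (((1 - t) * z.arg : ℝ) * Complex.I) * u)
      · apply Continuous.continuousOn
        fun_prop
      · simp only [sub_zero, one_mul]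
        exact hwz.symm
      · simp
      · rintro _ ⟨t, ht, rfl⟩
        refine ⟨hbound t ht, ?_⟩
        change r₂ < ‖c₂ + ‖z‖ * Complex.exp (((1 - t) * z.arg : ℝ) * Complex.I) * u - c₂‖
        rw [hdist2 _ _ hz0]
        exact hz2
  -- two points on the ray are joined
  have hseg : ∀ ρ ρ' : ℝ, r₂ < ρ → |ρ - d| < r₁ → r₂ < ρ' → |ρ' - d| < r₁ →
      JoinedIn Q (c₂ + ρ * u) (c₂ + ρ' * u) := by
    intro ρ ρ' h1 h2 h3 h4
    apply JoinedIn.ofLine (f := fun t : ℝ => c₂ + (((1 - t) * ρ + t * ρ' : ℝ) : ℂ) * u)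
    · apply Continuous.continuousOn
      fun_prop
    · simp
    · simp
    · rintro _ ⟨t, ht, rfl⟩
      have e1 : r₂ < (1 - t) * ρ + t * ρ' := by
        rcases ht.1.eq_or_lt with h | h
        · rw [← h]; linarith
        · nlinarith [ht.2]
      have e0 : 0 ≤ (1 - t) * ρ + t * ρ' := by linarith
      rw [abs_lt] at h2 h4
      refine ⟨?_, ?_⟩
      · change ‖c₂ + (((1 - t) * ρ + t * ρ' : ℝ) : ℂ) * u - c₁‖ < r₁
        have : c₂ + (((1 - t) * ρ + t * ρ' : ℝ) : ℂ) * u - c₁ =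
            (((1 - t) * ρ + t * ρ' - d : ℝ) : ℂ) * u := by
          rw [hc₁]; push_cast; ring
        rw [this, norm_mul, hu, mul_one, Complex.norm_real, Real.norm_eq_abs, abs_lt]
        rcases ht.1.eq_or_lt with h | h
        · rw [← h]; constructor <;> linarith
        · constructor <;> nlinarith [ht.2]
      · change r₂ < ‖c₂ + (((1 - t) * ρ + t * ρ' : ℝ) : ℂ) * u - c₂‖
        rw [add_sub_cancel_left, norm_mul, hu, mul_one, Complex.norm_real, Real.norm_of_nonneg e0]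
        exact e1
  rw [isPathConnected_iff]
  refine ⟨hne, ?_⟩
  intro x hx y hy
  obtain ⟨ρ, h1, h2, h3⟩ := hray x hx
  obtain ⟨ρ', h4, h5, h6⟩ := hray y hy
  exact (h3.trans (hseg ρ ρ' h1 h2 h4 h5)).trans h6.symm

/-- punctured discs -/
lemma punctured (c : ℂ) (r : ℝ) (hr : 0 < r) :
    IsPathConnected {w : ℂ | w ≠ 0 ∧ ‖w - c‖ < r} := by
  have h1 : {w : ℂ | w ≠ 0 ∧ ‖w - c‖ < r} = {w : ℂ | ‖w - c‖ < r ∧ 0 < ‖w - 0‖} := by
    ext w
    simp only [mem_ofPred_eq, sub_zero, norm_pos_iff]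
    exact and_comm
  rw [h1]
  apply disc_sdiff _ _ _ _ le_rfl
  by_cases hc : c = 0
  · refine ⟨((r / 2 : ℝ) : ℂ), ?_, ?_⟩
    · rw [hc, sub_zero, Complex.norm_real, Real.norm_of_nonneg (by positivity)]
      linarith
    · rw [sub_zero, Complex.norm_real, Real.norm_of_nonneg (by positivity)]
      positivity
  · exact ⟨c, by simpa using hr, by simpa using hc⟩

/-- the fibres -/
def Fib (a b h : ℂ) (ε : ℝ) : Set ℂ := {w : ℂ | w ≠ 0 ∧ ‖w - a‖ < ε ∧ ‖h / w - b‖ < ε}

lemma mem_fib_iff {a b h : ℂ} {ε : ℝ} (w : ℂ) :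
    w ∈ Fib a b h ε ↔ ‖w - a‖ < ε ∧ ‖h - b * w‖ < ε * ‖w‖ := by
  constructor
  · rintro ⟨h1, h2, h3⟩
    refine ⟨h2, ?_⟩
    have e : h - b * w = (h / w - b) * w := by field_simp
    rw [e, norm_mul]
    exact mul_lt_mul_of_pos_right h3 (norm_pos_iff.2 h1)
  · rintro ⟨h1, h2⟩
    have hw : w ≠ 0 := by
      rintro rfl
      simp only [mul_zero, sub_zero, norm_zero] at h2
      exact absurd h2 (not_lt.2 (norm_nonneg _))
    refine ⟨hw, h1, ?_⟩
    have e : h / w - b = (h - b * w) / w := by field_simp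
    rw [e, norm_div, div_lt_iff₀ (norm_pos_iff.2 hw)]
    exact h2

lemma norm_sub_mul_sq (b h w : ℂ) :
    ‖h - b * w‖ ^ 2 = ‖h‖ ^ 2 - 2 * (h * conj b * conj w).re + ‖b‖ ^ 2 * ‖w‖ ^ 2 := by
  rw [← Complex.normSq_eq_norm_sq, ← Complex.normSq_eq_norm_sq, ← Complex.normSq_eq_norm_sq,
    ← Complex.normSq_eq_norm_sq, Complex.normSq_apply, Complex.normSq_apply, Complex.normSq_apply,
    Complex.normSq_apply]
  simp
  ring

/-- the fibres are path connected -/
lemma fib_pathConnected {a b h : ℂ} {ε : ℝ} (hε : 0 < ε) (hh : h ≠ 0)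
    (hne : (Fib a b h ε).Nonempty) : IsPathConnected (Fib a b h ε) := by
  by_cases hb : ‖b‖ < ε
  · -- complement of a disc
    set D := ε ^ 2 - ‖b‖ ^ 2 with hD
    have hDpos : 0 < D := by rw [hD]; nlinarith [norm_nonneg b]
    have key : Fib a b h ε = {w : ℂ | ‖w - a‖ < ε ∧ ‖h‖ * ε / D < ‖w - (-(h * conj b) / D)‖} := by
      ext w
      rw [mem_fib_iff w]
      simp only [mem_ofPred_eq]
      apply and_congr_right
      intro _
      have e1 : ‖w - (-(h * conj b) / D)‖ ^ 2 =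
          ‖w‖ ^ 2 + 2 * (h * conj b * conj w).re / D + (‖h‖ * ‖b‖) ^ 2 / D ^ 2 := by
        rw [← Complex.normSq_eq_norm_sq, ← Complex.normSq_eq_norm_sq]
        have e2 : (‖h‖ * ‖b‖) ^ 2 = Complex.normSq (h * conj b) := by
          rw [Complex.normSq_eq_norm_sq, norm_mul, RCLike.norm_conj]
        rw [e2]
        have e3 : w - (-(h * conj b) / D) = w + (h * conj b) * ((1 / D : ℝ) : ℂ) := by
          push_cast; ring
        rw [e3]
        set g := h * conj b with hg
        rw [Complex.normSq_apply, Complex.normSq_apply, Complex.normSq_apply]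
        simp
        field_simp
        ring
      have e4 : ‖w - (-(h * conj b) / D)‖ ^ 2 - (‖h‖ * ε / D) ^ 2 =
          (D * ‖w‖ ^ 2 + 2 * (h * conj b * conj w).re - ‖h‖ ^ 2) / D := by
        rw [e1]
        have hE : ε ^ 2 = D + ‖b‖ ^ 2 := by rw [hD]; ring
        have hE2 : (‖h‖ * ε / D) ^ 2 = ‖h‖ ^ 2 * (D + ‖b‖ ^ 2) / D ^ 2 := by
          rw [← hE]; ring
        rw [hE2]
        field_simp
        ring
      have e5 : (ε * ‖w‖) ^ 2 - ‖h - b * w‖ ^ 2 =
          D * ‖w‖ ^ 2 + 2 * (h * conj b * conj w).re - ‖h‖ ^ 2 := by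
        rw [norm_sub_mul_sq, hD]
        ring
      constructor
      · intro h1
        have h2 : ‖h - b * w‖ ^ 2 < (ε * ‖w‖) ^ 2 :=
          pow_lt_pow_left₀ h1 (norm_nonneg _) (by norm_num)
        apply lt_of_pow_lt_pow_left₀ 2 (norm_nonneg _)
        have h3 : 0 < (D * ‖w‖ ^ 2 + 2 * (h * conj b * conj w).re - ‖h‖ ^ 2) / D := by
          apply div_pos _ hDpos
          linarith
        linarith
      · intro h1
        have h2 : (‖h‖ * ε / D) ^ 2 < ‖w - (-(h * conj b) / D)‖ ^ 2 :=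
          pow_lt_pow_left₀ h1 (by positivity) (by norm_num)
        have h3 : 0 < (D * ‖w‖ ^ 2 + 2 * (h * conj b * conj w).re - ‖h‖ ^ 2) / D := by
          linarith
        have h4 : 0 < D * ‖w‖ ^ 2 + 2 * (h * conj b * conj w).re - ‖h‖ ^ 2 := by
          have := mul_pos h3 hDpos
          rwa [div_mul_cancel₀ _ hDpos.ne'] at this
        apply lt_of_pow_lt_pow_left₀ 2 (by positivity)
        linarith
    rw [key] at hne ⊢
    exact disc_sdiff _ _ _ _ (by positivity) hne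
  · -- convex
    push Not at hb
    have hconv : Convex ℝ (Fib a b h ε) := by
      have hset : Fib a b h ε = Metric.ball a ε ∩ {w : ℂ | ‖h - b * w‖ < ε * ‖w‖} := by
        ext w
        rw [mem_fib_iff w, mem_inter_iff, mem_ball_iff_norm]
        rfl
      rw [hset]
      apply (convex_ball a ε).inter
      have hiff : ∀ w : ℂ, ‖h - b * w‖ < ε * ‖w‖ ↔
          (‖b‖ ^ 2 - ε ^ 2) * ‖w‖ ^ 2 - 2 * (h * conj b * conj w).re + ‖h‖ ^ 2 < 0 := by
        intro w
        have e5 : ‖h - b * w‖ ^ 2 - (ε * ‖w‖) ^ 2 =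
            (‖b‖ ^ 2 - ε ^ 2) * ‖w‖ ^ 2 - 2 * (h * conj b * conj w).re + ‖h‖ ^ 2 := by
          rw [norm_sub_mul_sq]
          ring
        rw [← e5]
        constructor
        · intro h1
          have h2 : ‖h - b * w‖ ^ 2 < (ε * ‖w‖) ^ 2 :=
            pow_lt_pow_left₀ h1 (norm_nonneg _) (by norm_num)
          linarith
        · intro h1
          apply lt_of_pow_lt_pow_left₀ 2 (by positivity)
          linarith
      intro x hx y hy s t hs ht hst
      change ‖h - b * x‖ < ε * ‖x‖ at hx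
      change ‖h - b * y‖ < ε * ‖y‖ at hy
      change ‖h - b * (s • x + t • y)‖ < ε * ‖s • x + t • y‖
      rw [hiff] at hx hy ⊢
      have hR : (h * conj b * conj (s • x + t • y)).re =
          s * (h * conj b * conj x).re + t * (h * conj b * conj y).re := by
        simp
        ring
      have hN : ‖s • x + t • y‖ ^ 2 ≤ s * ‖x‖ ^ 2 + t * ‖y‖ ^ 2 := by
        have h1 : ‖s • x + t • y‖ ≤ s * ‖x‖ + t * ‖y‖ := by
          refine (norm_add_le _ _).trans ?_
          rw [norm_smul, norm_smul, Real.norm_of_nonneg hs, Real.norm_of_nonneg ht]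
        have h2 : ‖s • x + t • y‖ ^ 2 ≤ (s * ‖x‖ + t * ‖y‖) ^ 2 :=
          pow_le_pow_left₀ (norm_nonneg _) h1 2
        have h3 : (s * ‖x‖ + t * ‖y‖) ^ 2 ≤ s * ‖x‖ ^ 2 + t * ‖y‖ ^ 2 := by
          have ht' : t = 1 - s := by linarith
          subst ht'
          nlinarith [mul_nonneg hs ht, sq_nonneg (‖x‖ - ‖y‖)]
        exact h2.trans h3
      have hB : 0 ≤ ‖b‖ ^ 2 - ε ^ 2 := by nlinarith
      have h4 := mul_le_mul_of_nonneg_left hN hB
      rw [hR]
      rcases hs.eq_or_lt with h0 | h0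
      · have : t = 1 := by linarith
        subst this
        rw [← h0] at h4 ⊢
        linarith
      · have h5 := mul_neg_of_pos_of_neg h0 hx
        have h6 := mul_nonpos_of_nonneg_of_nonpos ht hy.le
        have ht' : t = 1 - s := by linarith
        nlinarith
    exact hconv.isPathConnected hne

/-- the fibres are nonempty -/
lemma fib_nonempty {a b h : ℂ} {ε : ℝ} (hε : 0 < ε) (hh : h ≠ 0)
    (hab : ‖h - a * b‖ < ε ^ 2 / 16) : (Fib a b h ε).Nonempty := by
  by_cases ha : ε / 4 ≤ ‖a‖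
  · have ha0 : a ≠ 0 := by
      rintro rfl
      rw [norm_zero] at ha
      linarith
    refine ⟨a, ha0, by simpa using hε, ?_⟩
    have e : h / a - b = (h - a * b) / a := by field_simp
    rw [e, norm_div, div_lt_iff₀ (norm_pos_iff.2 ha0)]
    nlinarith
  · by_cases hb : ε / 4 ≤ ‖b‖
    · have hb0 : b ≠ 0 := by
        rintro rfl
        rw [norm_zero] at hb
        linarith
      refine ⟨h / b, div_ne_zero hh hb0, ?_, ?_⟩
      · have e : h / b - a = (h - a * b) / b := by field_simp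
        rw [e, norm_div, div_lt_iff₀ (norm_pos_iff.2 hb0)]
        nlinarith
      · have e : h / (h / b) - b = 0 := by rw [div_div_cancel₀ hh, sub_self]
        rw [e, norm_zero]
        exact hε
    · push Not at ha hb
      have h1 : ‖h‖ < ε ^ 2 / 8 := by
        have h2 : ‖h‖ ≤ ‖h - a * b‖ + ‖a * b‖ := by
          have := norm_add_le (h - a * b) (a * b)
          simpa using this
        rw [norm_mul] at h2
        have h3 : ‖a‖ * ‖b‖ ≤ ε / 4 * (ε / 4) :=
          mul_le_mul ha.le hb.le (norm_nonneg _) (by positivity)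
        nlinarith
      set r := Real.sqrt ‖h‖ with hr
      have hr0 : 0 < r := Real.sqrt_pos.2 (norm_pos_iff.2 hh)
      have hr2 : r ^ 2 = ‖h‖ := Real.sq_sqrt (norm_nonneg _)
      have hr3 : r < ε / 2 := by
        apply lt_of_pow_lt_pow_left₀ 2 (by positivity)
        rw [hr2]
        nlinarith
      refine ⟨(r : ℂ), by exact_mod_cast hr0.ne', ?_, ?_⟩
      · refine lt_of_le_of_lt (norm_sub_le _ _) ?_
        rw [Complex.norm_real, Real.norm_of_nonneg hr0.le]
        linarith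
      · refine lt_of_le_of_lt (norm_sub_le _ _) ?_
        rw [norm_div, Complex.norm_real, Real.norm_of_nonneg hr0.le, ← hr2]
        have : r ^ 2 / r = r := by field_simp
        rw [this]
        linarith

end Pool.Agent.TH259.OM
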