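import Mathlib

set_option autoImplicit false

/-!
A selection lemma over compact Hausdorff spaces of covering dimension at most one.
-/

namespace Pool.Agent.TH259.OM

open Set Filter Topology

universe u v

/-- `X` has covering dimension at most `n`: every finite open cover `𝒰` of `X` has a finite open
refinement `𝒱` covering `X` such that every point lies in at most `n + 1` members of `𝒱`. -/
def CoveringDimLE (X : Type u) [TopologicalSpace X] (n : ℕ) : Prop :=
  ∀ 𝒰 : Set (Set X), 𝒰.Finite → (∀ U ∈ 𝒰, IsOpen U) → ⋃₀ 𝒰 = univ →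
    ∃ 𝒱 : Set (Set X), 𝒱.Finite ∧ (∀ V ∈ 𝒱, IsOpen V) ∧ ⋃₀ 𝒱 = univ ∧
      (∀ V ∈ 𝒱, ∃ U ∈ 𝒰, V ⊆ U) ∧ ∀ x : X, {V | V ∈ 𝒱 ∧ x ∈ V}.ncard ≤ n + 1

/-- The form in which we use dimension at most one. -/
lemma exists_refine {X : Type u} [TopologicalSpace X] (hX : CoveringDimLE X 1)
    {κ : Type v} [Finite κ] (U : κ → Set X) (hU : ∀ i, IsOpen (U i)) (hc : ⋃ i, U i = univ) :
    ∃ (k : ℕ) (V : Fin k → Set X), (∀ j, IsOpen (V j)) ∧ ⋃ j, V j = univ ∧
      (∀ j, ∃ i, V j ⊆ U i) ∧
      ∀ x, ∀ a b c : Fin k, x ∈ V a → x ∈ V b → x ∈ V c → a = b ∨ b = c ∨ a = c := by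
  obtain ⟨𝒱, hf, ho, hcov, href, hord⟩ := hX (range U) (finite_range U)
    (by rintro _ ⟨i, rfl⟩; exact hU i) (by rw [sUnion_range]; exact hc)
  obtain ⟨k, ⟨e⟩⟩ := Finite.exists_equiv_fin 𝒱 (h := hf)
  refine ⟨k, fun j => (e.symm j : Set X), ?_, ?_, ?_, ?_⟩
  · intro j; exact ho _ (e.symm j).2
  · apply eq_univ_of_forall
    intro x
    have hx : x ∈ ⋃₀ 𝒱 := by rw [hcov]; trivial
    obtain ⟨V, hV, hxV⟩ := hx
    rw [mem_iUnion]
    exact ⟨e ⟨V, hV⟩, by simpa using hxV⟩
  · intro j
    obtain ⟨W, ⟨i, rfl⟩, hi⟩ := href _ (e.symm j).2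
    exact ⟨i, hi⟩
  · intro x a b c ha hb hc
    by_contra hcon
    push Not at hcon
    obtain ⟨hab, hbc, hac⟩ := hcon
    have hfin : {V | V ∈ 𝒱 ∧ x ∈ V}.Finite := hf.subset (fun V hV => hV.1)
    have hinj : ∀ i j : Fin k, (e.symm i : Set X) = (e.symm j : Set X) → i = j := by
      intro i j hij
      exact e.symm.injective (Subtype.ext hij)
    have h3 : ({(e.symm a : Set X), (e.symm b : Set X), (e.symm c : Set X)} : Set (Set X)) ⊆
        {V | V ∈ 𝒱 ∧ x ∈ V} := by
      intro V hV
      rcases hV with rfl | rfl | rfl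
      · exact ⟨(e.symm a).2, ha⟩
      · exact ⟨(e.symm b).2, hb⟩
      · exact ⟨(e.symm c).2, hc⟩
    have h4 := ncard_le_ncard h3 hfin
    have h5 : ({(e.symm a : Set X), (e.symm b : Set X), (e.symm c : Set X)} : Set (Set X)).ncard
        = 3 := by
      rw [ncard_eq_three]
      exact ⟨_, _, _, fun h => hab (hinj _ _ h), fun h => hac (hinj _ _ h),
        fun h => hbc (hinj _ _ h), rfl⟩
    have := hord x
    omega

/-- Local paths. -/
lemma local_paths {X : Type u} [TopologicalSpace X] {Y : Type v} [TopologicalSpace Y]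
    {O : Set (X × Y)} (hO : IsOpen O) (hpc : ∀ x, IsPathConnected {y | (x, y) ∈ O})
    {κ : Type} [Finite κ] (V : κ → Set X) (y : κ → Y)
    (hVy : ∀ i, ∀ x ∈ closure (V i), (x, y i) ∈ O) (z : X) :
    ∃ (M : Set X) (P : κ → κ → ℝ → Y), IsOpen M ∧ z ∈ M ∧
      ∀ i j, (M ∩ V i).Nonempty → (M ∩ V j).Nonempty →
        Continuous (P i j) ∧ P i j 0 = y i ∧ P i j 1 = y j ∧ ∀ x ∈ M, ∀ t, (x, P i j t) ∈ O := by
  classical
  have h1 : ∀ i j, ∃ p : ℝ → Y, z ∈ closure (V i) → z ∈ closure (V j) →
      (Continuous p ∧ p 0 = y i ∧ p 1 = y j ∧ ∀ᶠ x in 𝓝 z, ∀ t, (x, p t) ∈ O) := by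
    intro i j
    by_cases hi : z ∈ closure (V i)
    · by_cases hj : z ∈ closure (V j)
      · have hJ : JoinedIn {w | (z, w) ∈ O} (y i) (y j) :=
          (hpc z).joinedIn _ (hVy i z hi) _ (hVy j z hj)
        refine ⟨hJ.somePath.extend, fun _ _ => ⟨Path.continuous_extend _, by simp, by simp, ?_⟩⟩
        have hK : IsCompact (range hJ.somePath) := isCompact_range hJ.somePath.continuous
        have h2 : ∀ᶠ x in 𝓝 z, ∀ w ∈ range hJ.somePath, (x, w) ∈ O := by
          apply hK.eventually_forall_of_forall_eventually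
          rintro _ ⟨t, rfl⟩
          exact hO.mem_nhds (hJ.somePath_mem t)
        filter_upwards [h2] with x hx t
        apply hx
        rw [← Path.extend_range]
        exact mem_range_self t
      · exact ⟨fun _ => y i, fun _ h => absurd h hj⟩
    · exact ⟨fun _ => y i, fun h => absurd h hi⟩
  choose P hP using h1
  have h2 : ∀ᶠ x in 𝓝 z, ∀ i, z ∉ closure (V i) → x ∉ V i := by
    rw [eventually_all]
    intro i
    by_cases hi : z ∈ closure (V i)
    · exact Eventually.of_forall (fun x h => absurd hi h)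
    · have : (closure (V i))ᶜ ∈ 𝓝 z := isClosed_closure.isOpen_compl.mem_nhds hi
      filter_upwards [this] with x hx _ hxV
      exact hx (subset_closure hxV)
  have h3 : ∀ᶠ x in 𝓝 z, ∀ i j, z ∈ closure (V i) → z ∈ closure (V j) → ∀ t, (x, P i j t) ∈ O := by
    rw [eventually_all]
    intro i
    rw [eventually_all]
    intro j
    by_cases hi : z ∈ closure (V i)
    · by_cases hj : z ∈ closure (V j)
      · filter_upwards [(hP i j hi hj).2.2.2] with x hx _ _ using hx
      · exact Eventually.of_forall (fun x _ h => absurd h hj)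
    · exact Eventually.of_forall (fun x h => absurd h hi)
  obtain ⟨M, hM, hMo, hzM⟩ := eventually_nhds_iff.1 (h2.and h3)
  refine ⟨M, P, hMo, hzM, ?_⟩
  intro i j hi hj
  have hi' : z ∈ closure (V i) := by
    by_contra hcon
    obtain ⟨x, hx, hxV⟩ := hi
    exact (hM x hx).1 i hcon hxV
  have hj' : z ∈ closure (V j) := by
    by_contra hcon
    obtain ⟨x, hx, hxV⟩ := hj
    exact (hM x hx).1 j hcon hxV
  refine ⟨(hP i j hi' hj').1, (hP i j hi' hj').2.1, (hP i j hi' hj').2.2.1, ?_⟩
  intro x hx t
  exact (hM x hx).2 i j hi' hj' t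

/-- Gluing along a partition of unity of order at most two. -/
lemma glue {X : Type u} [TopologicalSpace X] [NormalSpace X] {Y : Type v} [TopologicalSpace Y]
    {O : Set (X × Y)} {k : ℕ} (V : Fin k → Set X) (hVo : ∀ j, IsOpen (V j))
    (hVc : ⋃ j, V j = univ)
    (hord : ∀ x, ∀ a b c : Fin k, x ∈ V a → x ∈ V b → x ∈ V c → a = b ∨ b = c ∨ a = c)
    (y : Fin k → Y) (hy : ∀ j, ∀ x ∈ V j, (x, y j) ∈ O)
    (P : Fin k → Fin k → ℝ → Y)
    (hP : ∀ a b, (V a ∩ V b).Nonempty → Continuous (P a b) ∧ P a b 0 = y a ∧ P a b 1 = y b ∧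
      ∀ x ∈ V a, ∀ t, (x, P a b t) ∈ O) :
    ∃ s : X → Y, Continuous s ∧ ∀ x, (x, s x) ∈ O := by
  classical
  obtain ⟨p, hp⟩ := PartitionOfUnity.exists_isSubordinate_of_locallyFinite
    (s := (univ : Set X)) isClosed_univ V hVo (locallyFinite_of_finite V) (by rw [hVc])
  have hsum : ∀ x, ∑ j, p j x = 1 := by
    intro x
    rw [← finsum_eq_sum_of_fintype]
    exact p.sum_eq_one (mem_univ x)
  have hpV : ∀ j x, p j x ≠ 0 → x ∈ V j := by
    intro j x h
    exact hp j (subset_tsupport _ h)
  have hnn : ∀ j x, 0 ≤ p j x := fun j x => p.nonneg j x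
  -- two indices with sum one exhaust
  have hrest : ∀ x a b, a ≠ b → p a x + p b x = 1 → ∀ c, c ≠ a → c ≠ b → p c x = 0 := by
    intro x a b hab h c hca hcb
    have h1 : p a x + p b x + p c x ≤ ∑ j, p j x := by
      have h2 : ∑ j ∈ ({a, b, c} : Finset (Fin k)), p j x ≤ ∑ j, p j x :=
        Finset.sum_le_sum_of_subset_of_nonneg (Finset.subset_univ _) (fun j _ _ => hnn j x)
      rw [Finset.sum_insert (by simp [hab, hca.symm]), Finset.sum_insert (by simp [hcb.symm]),
        Finset.sum_singleton] at h2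
      linarith
    rw [hsum] at h1
    have := hnn c x
    linarith
  have hrest1 : ∀ x a, p a x = 1 → ∀ c, c ≠ a → p c x = 0 := by
    intro x a h c hca
    have h2 : ∑ j ∈ ({a, c} : Finset (Fin k)), p j x ≤ ∑ j, p j x :=
        Finset.sum_le_sum_of_subset_of_nonneg (Finset.subset_univ _) (fun j _ _ => hnn j x)
    rw [Finset.sum_insert (by simp [hca.symm]), Finset.sum_singleton, hsum] at h2
    have := hnn c x
    linarith
  -- closed pieces, indexed by pairs
  let F : Fin k × Fin k → Set X := fun q =>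
    if q.1 < q.2 ∧ (V q.1 ∩ V q.2).Nonempty then {x | p q.1 x + p q.2 x = 1}
    else if q.1 = q.2 then {x | p q.1 x = 1} else ∅
  let f : Fin k × Fin k → X → Y := fun q x =>
    if q.1 < q.2 then P q.1 q.2 (p q.2 x) else y q.1
  have hFcl : ∀ q, IsClosed (F q) := by
    intro q
    simp only [F]
    split_ifs
    · exact isClosed_eq (((p q.1).continuous).add (p q.2).continuous) continuous_const
    · exact isClosed_eq (p q.1).continuous continuous_const
    · exact isClosed_empty
  have hfc : ∀ q, ContinuousOn (f q) (F q) := by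
    intro q
    simp only [F, f]
    by_cases h1 : q.1 < q.2 ∧ (V q.1 ∩ V q.2).Nonempty
    · rw [if_pos h1]
      simp only [if_pos h1.1]
      exact ((hP _ _ h1.2).1.comp (p q.2).continuous).continuousOn
    · rw [if_neg h1]
      by_cases h2 : q.1 = q.2
      · have h3 : ¬ q.1 < q.2 := by rw [h2]; exact lt_irrefl _
        simp only [if_neg h3]
        exact continuousOn_const
      · rw [if_neg h2]
        exact continuousOn_empty _
  have hcov : ⋃ q, F q = univ := by
    apply eq_univ_of_forall
    intro x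
    rw [mem_iUnion]
    have hex : ∃ a, p a x ≠ 0 := by
      by_contra hcon
      push Not at hcon
      have := hsum x
      simp [hcon] at this
    obtain ⟨a, ha⟩ := hex
    by_cases h2 : ∃ b, b ≠ a ∧ p b x ≠ 0
    · obtain ⟨b, hba, hb⟩ := h2
      have hne : (V a ∩ V b).Nonempty := ⟨x, hpV a x ha, hpV b x hb⟩
      have htot : p a x + p b x = 1 := by
        have h3 : ∑ j ∈ ({a, b} : Finset (Fin k)), p j x = ∑ j, p j x := by
          apply Finset.sum_subset (Finset.subset_univ _)
          intro c _ hc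
          by_contra hcon
          simp only [Finset.mem_insert, Finset.mem_singleton, not_or] at hc
          rcases hord x a b c (hpV a x ha) (hpV b x hb) (hpV c x hcon) with h | h | h
          · exact hba h.symm
          · exact hc.2 h.symm
          · exact hc.1 h.symm
        rw [hsum, Finset.sum_pair hba.symm] at h3
        exact h3
      rcases lt_or_gt_of_ne hba with h | h
      · refine ⟨(b, a), ?_⟩
        simp only [F]
        rw [if_pos ⟨h, by rwa [inter_comm]⟩]
        change p b x + p a x = 1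
        linarith
      · refine ⟨(a, b), ?_⟩
        simp only [F]
        rw [if_pos ⟨h, hne⟩]
        exact htot
    · push Not at h2
      refine ⟨(a, a), ?_⟩
      simp only [F]
      rw [if_neg (by simp), if_pos trivial]
      have h3 : ∑ j, p j x = p a x := by
        apply Finset.sum_eq_single_of_mem a (Finset.mem_univ a)
        intro b _ hb
        exact h2 b hb
      rw [hsum] at h3
      exact h3.symm
  -- value at points where one weight is 1
  have hone : ∀ x a, p a x = 1 → ∀ q, x ∈ F q → f q x = y a := by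
    intro x a ha q hq
    simp only [F] at hq
    split_ifs at hq with h1 h2
    · change p q.1 x + p q.2 x = 1 at hq
      simp only [f]
      rw [if_pos h1.1]
      by_cases h2 : a = q.1
      · subst h2
        have : p q.2 x = 0 := by linarith
        rw [this]
        exact (hP _ _ h1.2).2.1
      · by_cases h3 : a = q.2
        · subst h3
          rw [ha]
          exact (hP _ _ h1.2).2.2.1
        · have := hrest x q.1 q.2 h1.1.ne hq a h2 h3
          rw [this] at ha
          norm_num at ha
    · change p q.1 x = 1 at hq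
      simp only [f]
      rw [if_neg (by omega)]
      have : a = q.1 := by
        by_contra hcon
        have := hrest1 x q.1 hq a hcon
        rw [this] at ha
        norm_num at ha
      rw [this]
    · exact absurd hq (notMem_empty x)
  have hcons : ∀ x q q', x ∈ F q → x ∈ F q' → f q x = f q' x := by
    intro x q q' hq hq'
    by_cases h : ∃ a, p a x = 1
    · obtain ⟨a, ha⟩ := h
      rw [hone x a ha q hq, hone x a ha q' hq']
    · push Not at h
      have hq2 := hq
      have hq2' := hq'
      simp only [F] at hq2 hq2'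
      split_ifs at hq2 with h1 h2
      · split_ifs at hq2' with h1' h2'
        · change p q.1 x + p q.2 x = 1 at hq2
          change p q'.1 x + p q'.2 x = 1 at hq2'
          have e1 : p q.1 x ≠ 0 := fun h0 => h q.2 (by linarith)
          have e2 : p q.2 x ≠ 0 := fun h0 => h q.1 (by linarith)
          have e3 : q.1 = q'.1 ∨ q.1 = q'.2 := by
            by_contra hcon
            push Not at hcon
            exact e1 (hrest x q'.1 q'.2 h1'.1.ne hq2' q.1 hcon.1 hcon.2)
          have e4 : q.2 = q'.1 ∨ q.2 = q'.2 := by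
            by_contra hcon
            push Not at hcon
            exact e2 (hrest x q'.1 q'.2 h1'.1.ne hq2' q.2 hcon.1 hcon.2)
          have e5 : q = q' := by
            apply Prod.ext
            · rcases e3 with e3 | e3
              · exact e3
              · rcases e4 with e4 | e4 <;> omega
            · rcases e4 with e4 | e4
              · rcases e3 with e3 | e3 <;> omega
              · exact e4
          rw [e5]
        · exact absurd hq2' (h q'.1)
        · exact absurd hq2' (notMem_empty x)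
      · exact absurd hq2 (h q.1)
      · exact absurd hq2 (notMem_empty x)
  have hchoose : ∀ x, ∃ q, x ∈ F q := by
    intro x
    have : x ∈ ⋃ q, F q := by rw [hcov]; trivial
    exact mem_iUnion.1 this
  choose Q hQ using hchoose
  refine ⟨fun x => f (Q x) x, ?_, ?_⟩
  · refine (locallyFinite_of_finite F).continuous hcov hFcl ?_
    intro q
    refine (hfc q).congr (fun x hx => ?_)
    exact hcons x (Q x) q (hQ x) hx
  · intro x
    have hx := hQ x
    simp only [F] at hx
    simp only [f]
    split_ifs at hx with h1 h2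
    · rw [if_pos h1.1]
      change p (Q x).1 x + p (Q x).2 x = 1 at hx
      by_cases h3 : p (Q x).1 x = 0
      · have h4 : p (Q x).2 x = 1 := by linarith
        rw [h4, (hP _ _ h1.2).2.2.1]
        exact hy _ x (hpV _ x (by rw [h4]; norm_num))
      · exact (hP _ _ h1.2).2.2.2 x (hpV _ x h3) _
    · rw [if_neg (by omega)]
      change p (Q x).1 x = 1 at hx
      exact hy _ x (hpV _ x (by rw [hx]; norm_num))
    · exact absurd hx (notMem_empty x)

/-- **Selection lemma.** Over a compact Hausdorff space of covering dimension at most one, an open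
relation all of whose fibres are path connected has a continuous section. -/
theorem selection {X : Type u} [TopologicalSpace X] [CompactSpace X] [T2Space X]
    (hX : CoveringDimLE X 1) {Y : Type v} [TopologicalSpace Y]
    {O : Set (X × Y)} (hO : IsOpen O) (hpc : ∀ x, IsPathConnected {y | (x, y) ∈ O}) :
    ∃ s : X → Y, Continuous s ∧ ∀ x, (x, s x) ∈ O := by
  classical
  -- local constants
  have h0 : ∀ x, ∃ w, (x, w) ∈ O := fun x => (hpc x).nonempty
  choose w hw using h0
  let N : X → Set X := fun x => {z | (z, w x) ∈ O}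
  have hNo : ∀ x, IsOpen (N x) := fun x => hO.preimage (by fun_prop : Continuous fun z => (z, w x))
  obtain ⟨T, hT⟩ := isCompact_univ.elim_finite_subcover N hNo
    (fun x _ => mem_iUnion.2 ⟨x, hw x⟩)
  obtain ⟨n, ⟨e⟩⟩ := Finite.exists_equiv_fin T
  let N' : Fin n → Set X := fun i => N (e.symm i : X)
  have hN'c : ⋃ i, N' i = univ := by
    apply eq_univ_of_forall
    intro x
    have := hT (mem_univ x)
    simp only [mem_iUnion] at this ⊢
    obtain ⟨i, hi, hx⟩ := this
    exact ⟨e ⟨i, hi⟩, by simpa [N'] using hx⟩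
  obtain ⟨V, hVc, hVo, hVN⟩ := exists_iUnion_eq_closure_subset (u := N') (fun i => hNo _)
    (fun x => Set.toFinite _) hN'c
  let y : Fin n → Y := fun i => w (e.symm i : X)
  have hVy : ∀ i, ∀ x ∈ closure (V i), (x, y i) ∈ O := fun i x hx => hVN i hx
  have hloc := local_paths hO hpc V y hVy
  choose M P hMo hzM hMP using hloc
  obtain ⟨S, hS⟩ := isCompact_univ.elim_finite_subcover M hMo
    (fun x _ => mem_iUnion.2 ⟨x, hzM x⟩)
  -- the common cover
  have hcov : ⋃ q : S × Fin n, (M (q.1 : X) ∩ V q.2) = univ := by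
    apply eq_univ_of_forall
    intro x
    have h1 := hS (mem_univ x)
    simp only [mem_iUnion] at h1
    obtain ⟨z, hz, hxz⟩ := h1
    have h2 : x ∈ ⋃ i, V i := by rw [hVc]; trivial
    obtain ⟨i, hi⟩ := mem_iUnion.1 h2
    exact mem_iUnion.2 ⟨(⟨z, hz⟩, i), hxz, hi⟩
  obtain ⟨k, U, hUo, hUc, hUr, hord⟩ := exists_refine hX
    (fun q : S × Fin n => M (q.1 : X) ∩ V q.2) (fun q => (hMo _).inter (hVo _)) hcov
  choose r hr using hUr
  refine glue U hUo hUc hord (fun a => y (r a).2) ?_
    (fun a b => P ((r a).1 : X) (r a).2 (r b).2) ?_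
  · intro j x hx
    exact hVy _ x (subset_closure (hr j hx).2)
  · intro a b hab
    obtain ⟨x, hxa, hxb⟩ := hab
    have h1 := hMP ((r a).1 : X) (r a).2 (r b).2 ⟨x, (hr a hxa).1, (hr a hxa).2⟩
      ⟨x, (hr a hxa).1, (hr b hxb).2⟩
    exact ⟨h1.1, h1.2.1, h1.2.2.1, fun z hz t => h1.2.2.2 z (hr a hz).1 t⟩

end Pool.Agent.TH259.OM
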