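import Mathlib
import Pool.Agent.TH259.OM.Sel
import Pool.Agent.TH259.OM.Geo

set_option autoImplicit false

/-!
Multiplication in `C(X)`, `X` compact Hausdorff of covering dimension at most one.
-/

namespace Pool.Agent.TH259.OM

open Set Filter Topology

universe u

variable {X : Type u} [TopologicalSpace X] [CompactSpace X] [T2Space X]

/-- Zero free functions are dense. -/
lemma exists_zero_free (hX : CoveringDimLE X 1) (h : C(X, ℂ)) {η : ℝ} (hη : 0 < η) :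
    ∃ h' : C(X, ℂ), (∀ x, h' x ≠ 0) ∧ ‖h' - h‖ < η := by
  have hO : IsOpen {q : X × ℂ | q.2 ≠ 0 ∧ ‖q.2 - h q.1‖ < η} :=
    (isOpen_ne.preimage continuous_snd).inter
      (isOpen_lt (f := fun q : X × ℂ => ‖q.2 - h q.1‖) (by fun_prop) continuous_const)
  obtain ⟨s, hs, hsO⟩ := selection hX hO (fun x => punctured (h x) η hη)
  refine ⟨⟨s, hs⟩, fun x => (hsO x).1, ?_⟩
  rw [ContinuousMap.norm_lt_iff _ hη]
  intro x
  exact (hsO x).2

/-- The main step. -/
lemma factor_zero_free (hX : CoveringDimLE X 1) (a b h : C(X, ℂ)) {ε : ℝ} (hε : 0 < ε)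
    (hh : ∀ x, h x ≠ 0) (hab : ‖h - a * b‖ < ε ^ 2 / 16) :
    ∃ f g : C(X, ℂ), ‖f - a‖ < ε ∧ ‖g - b‖ < ε ∧ f * g = h := by
  have hO : IsOpen {q : X × ℂ | q.2 ∈ Fib (a q.1) (b q.1) (h q.1) ε} := by
    have e : {q : X × ℂ | q.2 ∈ Fib (a q.1) (b q.1) (h q.1) ε} =
        {q : X × ℂ | ‖q.2 - a q.1‖ < ε} ∩ {q : X × ℂ | ‖h q.1 - b q.1 * q.2‖ < ε * ‖q.2‖} := by
      ext q
      exact mem_fib_iff q.2
    rw [e]
    apply IsOpen.inter
    · exact isOpen_lt (by fun_prop) continuous_const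
    · exact isOpen_lt (by fun_prop) (by fun_prop)
  obtain ⟨s, hs, hsO⟩ := selection hX hO (fun x =>
    fib_pathConnected hε (hh x) (fib_nonempty hε (hh x)
      (lt_of_le_of_lt ((h - a * b).norm_coe_le_norm x) hab)))
  have hs0 : ∀ x, s x ≠ 0 := fun x => (hsO x).1
  refine ⟨⟨s, hs⟩, ⟨fun x => h x / s x, h.continuous.div hs hs0⟩, ?_, ?_, ?_⟩
  · rw [ContinuousMap.norm_lt_iff _ hε]
    intro x
    exact (hsO x).2.1
  · rw [ContinuousMap.norm_lt_iff _ hε]
    intro x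
    exact (hsO x).2.2
  · ext x
    change s x * (h x / s x) = h x
    have := hs0 x
    field_simp

/-- One step of the iteration. -/
lemma step (hX : CoveringDimLE X 1) (a b h : C(X, ℂ)) {ε : ℝ} (hε : 0 < ε)
    (hab : ‖h - a * b‖ < ε ^ 2 / 16) {η : ℝ} (hη : 0 < η) :
    ∃ f g : C(X, ℂ), ‖f - a‖ < ε ∧ ‖g - b‖ < ε ∧ ‖h - f * g‖ < η := by
  obtain ⟨h', h1, h2⟩ := exists_zero_free hX h
    (η := min η (ε ^ 2 / 16 - ‖h - a * b‖)) (lt_min hη (by linarith))
  obtain ⟨f, g, h3, h4, h5⟩ := factor_zero_free hX a b h' hε h1 (by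
    have e : h' - a * b = (h' - h) + (h - a * b) := by abel
    rw [e]
    refine lt_of_le_of_lt (norm_add_le _ _) ?_
    have := lt_of_lt_of_le h2 (min_le_right _ _)
    linarith)
  refine ⟨f, g, h3, h4, ?_⟩
  rw [h5, norm_sub_rev]
  exact lt_of_lt_of_le h2 (min_le_left _ _)

/-- Exact factorization near a given pair. -/
theorem factor (hX : CoveringDimLE X 1) (a b h : C(X, ℂ)) {ε : ℝ} (hε : 0 < ε)
    (hab : ‖h - a * b‖ < ε ^ 2 / 256) :
    ∃ f g : C(X, ℂ), ‖f - a‖ < ε ∧ ‖g - b‖ < ε ∧ f * g = h := by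
  -- radii
  obtain ⟨r, hr⟩ : ∃ r : ℕ → ℝ, r = fun k => (ε / 2) / 2 / 2 ^ k := ⟨_, rfl⟩
  have hrpos : ∀ k, 0 < r k := by intro k; rw [hr]; positivity
  have hstep : ∀ (k : ℕ) (p : C(X, ℂ) × C(X, ℂ)), ∃ q : C(X, ℂ) × C(X, ℂ),
      ‖h - p.1 * p.2‖ < (r k) ^ 2 / 16 →
      (‖q.1 - p.1‖ < r k ∧ ‖q.2 - p.2‖ < r k ∧ ‖h - q.1 * q.2‖ < (r (k + 1)) ^ 2 / 16) := by
    intro k p
    by_cases hp : ‖h - p.1 * p.2‖ < (r k) ^ 2 / 16
    · obtain ⟨f, g, h1, h2, h3⟩ := step hX p.1 p.2 h (hrpos k) hp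
        (η := (r (k + 1)) ^ 2 / 16) (by have := hrpos (k + 1); positivity)
      exact ⟨(f, g), fun _ => ⟨h1, h2, h3⟩⟩
    · exact ⟨p, fun h => absurd h hp⟩
  choose nxt hnxt using hstep
  let sq : ℕ → C(X, ℂ) × C(X, ℂ) := fun n => Nat.rec (a, b) (fun k p => nxt k p) n
  have hsq0 : sq 0 = (a, b) := rfl
  have hsqs : ∀ k, sq (k + 1) = nxt k (sq k) := fun k => rfl
  have hP : ∀ k, ‖h - (sq k).1 * (sq k).2‖ < (r k) ^ 2 / 16 := by
    intro k
    induction k with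
    | zero =>
      rw [hsq0, hr]
      simp only [pow_zero, div_one]
      refine lt_of_lt_of_eq hab ?_
      ring
    | succ k ih =>
      rw [hsqs]
      exact (hnxt k (sq k) ih).2.2
  have h1 : ∀ k, dist (sq k).1 (sq (k + 1)).1 ≤ (ε / 2) / 2 / 2 ^ k := by
    intro k
    rw [dist_eq_norm, norm_sub_rev, hsqs]
    have := (hnxt k (sq k) (hP k)).1.le
    rwa [hr] at this
  have h2 : ∀ k, dist (sq k).2 (sq (k + 1)).2 ≤ (ε / 2) / 2 / 2 ^ k := by
    intro k
    rw [dist_eq_norm, norm_sub_rev, hsqs]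
    have := (hnxt k (sq k) (hP k)).2.1.le
    rwa [hr] at this
  obtain ⟨f, hf⟩ := cauchySeq_tendsto_of_complete (cauchySeq_of_le_geometric_two h1)
  obtain ⟨g, hg⟩ := cauchySeq_tendsto_of_complete (cauchySeq_of_le_geometric_two h2)
  have hfa := dist_le_of_le_geometric_two_of_tendsto₀ h1 hf
  have hgb := dist_le_of_le_geometric_two_of_tendsto₀ h2 hg
  refine ⟨f, g, ?_, ?_, ?_⟩
  · rw [hsq0, dist_comm, dist_eq_norm] at hfa
    simp only at hfa
    linarith
  · rw [hsq0, dist_comm, dist_eq_norm] at hgb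
    simp only at hgb
    linarith
  · have h3 : Tendsto (fun k => h - (sq k).1 * (sq k).2) atTop (𝓝 (h - f * g)) :=
      (hf.mul hg).const_sub h
    have h4 : Tendsto (fun k => h - (sq k).1 * (sq k).2) atTop (𝓝 0) := by
      rw [tendsto_zero_iff_norm_tendsto_zero]
      have h5 : Tendsto (fun k => (r k) ^ 2 / 16) atTop (𝓝 0) := by
        have h6 : Tendsto r atTop (𝓝 0) := by
          rw [hr]
          have h7 := (tendsto_inv_atTop_zero.comp
            (tendsto_pow_atTop_atTop_of_one_lt (one_lt_two : (1 : ℝ) < 2))).const_mul ((ε / 2) / 2)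
          rw [mul_zero] at h7
          exact h7
        have h8 := (h6.pow 2).div_const 16
        simpa using h8
      exact squeeze_zero (fun k => norm_nonneg _) (fun k => (hP k).le) h5
    have h9 := tendsto_nhds_unique h3 h4
    exact (sub_eq_zero.1 h9).symm

end Pool.Agent.TH259.OM
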